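import Pool.Agent.SOR.Stmts1

/-! Squad SOR, row NDI: the change of the gauge. -/

open scoped BigOperators

noncomputable section

namespace Pool.Agent.SOR.H13

open Pool.Agent.SOR

section

variable {Y : Type}

theorem pinv (π : Equiv.Perm Y) (y : Y) : π (π⁻¹ y) = y := π.apply_symm_apply y

theorem cx_dl (i : Fr →* Equiv.Perm Y) (f : Y → ℚ) : Cx i (dl i f) := by
  intro g h y
  simp only [dl, map_mul, Equiv.Perm.mul_apply]
  ring

theorem cx_add {i : Fr →* Equiv.Perm Y} {u v : Fr → Y → ℚ} (hu : Cx i u) (hv : Cx i v) :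
    Cx i (fun w y => u w y + v w y) := by
  intro g h y
  simp only [hu g h y, hv g h y]
  ring

theorem cx_sub {i : Fr →* Equiv.Perm Y} {u v : Fr → Y → ℚ} (hu : Cx i u) (hv : Cx i v) :
    Cx i (fun w y => u w y - v w y) := by
  intro g h y
  simp only [hu g h y, hv g h y]
  ring

theorem act_inv {i : Fr →* Equiv.Perm Y} {φ : MulAut Fr} {π : Equiv.Perm Y}
    (h : ∀ w y, π (i w y) = i (φ w) (π y)) (w : Fr) (y : Y) :
    π⁻¹ (i w y) = i (φ⁻¹ w) (π⁻¹ y) := by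
  rw [Equiv.Perm.inv_eq_iff_eq, h, pinv, MulAut.apply_inv_self]

theorem cx_tw {i : Fr →* Equiv.Perm Y} {φ : MulAut Fr} {π : Equiv.Perm Y}
    (h : ∀ w y, π (i w y) = i (φ w) (π y)) {u : Fr → Y → ℚ} (hu : Cx i u) : Cx i (tw φ π u) := by
  intro g k y
  simp only [tw, map_mul]
  rw [hu, act_inv h]

theorem pa_C : pa lC = lC := by
  show fa lC = lC
  simp only [lC, map_mul, map_inv, fa_A, fa_B]
  group

theorem pa_inv_C : pa⁻¹ lC = lC := by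
  show pa.symm lC = lC
  rw [MulEquiv.symm_apply_eq]
  exact pa_C.symm

theorem C_eq : lC = lA'⁻¹ * lA := by
  simp only [lC, lA']
  group

end

theorem ndi (hIVF : IvfStmt) : NdiStmt := by
  intro Y _ R i x₁ x₂ h₁ h₂ hB π f₁ f₂ μ₁ μ₂ g₂ hN Δ hΔ1 hΔ2
  obtain ⟨_, hii, hiii, hiv, hv, _, _⟩ := hIVF Y i
  -- invariance of `h`
  have i1 : ∀ y, h₁ (π⁻¹ y) = h₁ y := fun y => by
    have := hN.i₁ (π⁻¹ y)
    rwa [pinv, eq_comm] at this
  have i2 : ∀ y, h₂ (π⁻¹ y) = h₂ y := fun y => by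
    have := hN.i₂ (π⁻¹ y)
    rwa [pinv, eq_comm] at this
  have iΔ : ∀ y, Δ (π⁻¹ y) = Δ y := fun y => by
    have := hΔ1 (π⁻¹ y)
    rwa [pinv, eq_comm] at this
  have hai := act_inv hN.act
  have haC : ∀ y, π⁻¹ (i lC y) = i lC (π⁻¹ y) := fun y => by rw [hai, pa_inv_C]
  -- the functions
  obtain ⟨k, hk⟩ : ∃ k : Y → ℚ, ∀ y, k y = g₂ y + f₂ (π⁻¹ y) - f₂ y + μ₂ y := ⟨_, fun _ => rfl⟩
  obtain ⟨j, hj⟩ : ∃ j : Y → ℚ, ∀ y, j y = h₂ y - x₂ lC y := ⟨_, fun _ => rfl⟩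
  obtain ⟨D, hD⟩ : ∃ D : Y → ℚ, ∀ y, D y = f₁ (i lC (π⁻¹ y)) - f₁ (π⁻¹ y) := ⟨_, fun _ => rfl⟩
  obtain ⟨X, hX⟩ : ∃ X : Fr → Y → ℚ, X = tw pa π (fun w y => x₁ w y + dl i f₁ w y) := ⟨_, rfl⟩
  obtain ⟨E, hE⟩ : ∃ E : Fr → Y → ℚ, E = (fun w y => (x₂ (pa⁻¹ w) (π⁻¹ y) +
    dl i f₂ (pa⁻¹ w) (π⁻¹ y)) - (x₂ w y + dl i f₂ w y) + dl i μ₂ w y) := ⟨_, rfl⟩
  have kR : ∀ y, k y ∈ R := fun y => by rw [hk]; exact hN.gr y
  have jR : ∀ y, j y ∈ R := fun y => by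
    have := R.neg_mem (hB.xc₂ y)
    rw [hj]
    rwa [neg_sub] at this
  have cX : Cx i X := by
    rw [hX]
    exact cx_tw hN.act (cx_add hB.ex₁ (cx_dl i f₁))
  have cE : Cx i E := by
    rw [hE]
    have h1 : Cx i (tw pa π (fun w y => x₂ w y + dl i f₂ w y)) :=
      cx_tw hN.act (cx_add hB.ex₂ (cx_dl i f₂))
    exact cx_add (cx_sub h1 (cx_add hB.ex₂ (cx_dl i f₂))) (cx_dl i μ₂)
  have e1 : tw pa π x₁ = fun w y => X w y + dl i (fun y => - f₁ (π⁻¹ y)) w y := by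
    funext w y
    rw [hX]
    simp only [tw, dl, hai]
    ring
  have e2 : eps i x₂ pa π g₂ = fun w y => E w y + dl i (fun y => - k y) w y := by
    funext w y
    rw [hE]
    simp only [eps, tw, dl, hk, hai]
    ring
  have cEps : Cx i (eps i x₂ pa π g₂) := by
    rw [e2]
    exact cx_add cE (cx_dl i _)
  have eC : ∀ y, eps i x₂ pa π g₂ lC y = j y - j (π⁻¹ y) := by
    intro y
    simp only [eps, tw, dl, hj, pa_inv_C, hN.gc, i2]
    ring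
  have XC : ∀ y, X lC y = x₁ lC (π⁻¹ y) + D y := by
    intro y
    rw [hX, hD]
    simp only [tw, dl, pa_inv_C]
  have e3 : Iv i (tw pa π x₁) (eps i x₂ pa π g₂) = Iv i X E + ∑ y, X lC y * k y -
      ∑ y, f₁ (π⁻¹ (i lC y)) * (j y - j (π⁻¹ y)) := by
    rw [e1, hii X (dl i (fun y => - f₁ (π⁻¹ y))) _ cX (cx_dl i _) cEps, hiv _ _ cEps]
    have e4 : Iv i X (eps i x₂ pa π g₂) = Iv i X E + ∑ y, X lC y * k y := by
      rw [e2, hiii X E (dl i (fun y => - k y)) cX cE (cx_dl i _), hv X _ cX]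
      simp only [mul_neg, Finset.sum_neg_distrib, neg_neg]
    rw [e4]
    have e5 : ∑ y, (fun y => - f₁ (π⁻¹ y)) (i lC y) * eps i x₂ pa π g₂ lC y =
        - ∑ y, f₁ (π⁻¹ (i lC y)) * (j y - j (π⁻¹ y)) := by
      rw [← Finset.sum_neg_distrib]
      refine Finset.sum_congr rfl fun y _ => ?_
      rw [eC]
      simp only
      ring
    rw [e5]
    ring
  -- reindexing
  have rei : ∀ F : Y → ℚ, ∑ y, F (π⁻¹ y) = ∑ y, F y := fun F => Equiv.sum_comp π⁻¹ F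
  have e6 : ∑ y, f₁ y * j y = ∑ y, f₁ (π⁻¹ y) * j (π⁻¹ y) := (rei (fun y => f₁ y * j y)).symm
  have e7 : ∑ y, h₁ y * f₂ (π⁻¹ y) = ∑ y, h₁ y * f₂ y := by
    rw [← rei (fun y => h₁ y * f₂ y)]
    refine Finset.sum_congr rfl fun y _ => ?_
    rw [i1]
  have e8 : ∑ y, Δ y * j (π⁻¹ y) = ∑ y, Δ y * j y := by
    rw [← rei (fun y => Δ y * j y)]
    refine Finset.sum_congr rfl fun y _ => ?_
    rw [iΔ]
  have dR : ∀ y, D y - Δ y ∈ R := by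
    intro y
    have h1 := hN.m₁ lC y
    have h2 : dl i μ₁ lC y = 0 := by
      have e : i lC y = i lA'⁻¹ (i lA y) := by
        rw [C_eq, map_mul, Equiv.Perm.mul_apply]
      have e' : μ₁ (i lA'⁻¹ (i lA y)) = μ₁ (i lA y) := by
        have := hN.c₁ (i lA'⁻¹ (i lA y))
        rw [← this, ← Equiv.Perm.mul_apply, ← map_mul, mul_inv_cancel, map_one,
          Equiv.Perm.one_apply]
      simp only [dl]
      rw [e, e', hN.b₁, sub_self]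
    rw [pa_inv_C, h2, add_zero] at h1
    have h3 := hB.xc₁ (π⁻¹ y)
    rw [i1] at h3
    have h4 := hΔ2 y
    have e : D y - Δ y = ((x₁ lC (π⁻¹ y) + dl i f₁ lC (π⁻¹ y)) - (x₁ lC y + dl i f₁ lC y)) -
        (x₁ lC (π⁻¹ y) - h₁ y) - (Δ y - (x₁ lC y + dl i f₁ lC y - h₁ y)) := by
      rw [hD]
      simp only [dl]
      ring
    rw [e]
    exact R.sub_mem (R.sub_mem h1 h3) h4
  -- the main identity
  have main : tau i x₁ x₂ h₁ h₂ pa π (fun y => - μ₁ y - f₁ (π⁻¹ y) + f₁ y) g₂ -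
      (Iv i X E + ∑ y, h₁ y * μ₂ y + ∑ y, μ₁ y * (h₂ y - x₂ lC y) +
        ∑ y, Δ y * (g₂ y + f₂ (π⁻¹ y) - f₂ y + μ₂ y)) =
      ∑ y, ((x₁ lC (π⁻¹ y) - h₁ (π⁻¹ y)) * k y + (D y - Δ y) * k y -
        (D y - Δ y) * (j y - j (π⁻¹ y))) := by
    have e9 : ∑ y, h₁ y * g₂ y = ∑ y, h₁ y * k y - ∑ y, h₁ y * μ₂ y := by
      have : ∑ y, h₁ y * k y = ∑ y, h₁ y * g₂ y + ∑ y, h₁ y * f₂ (π⁻¹ y) - ∑ y, h₁ y * f₂ y +
          ∑ y, h₁ y * μ₂ y := by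
        rw [← Finset.sum_add_distrib, ← Finset.sum_sub_distrib, ← Finset.sum_add_distrib]
        refine Finset.sum_congr rfl fun y _ => ?_
        rw [hk]
        ring
      rw [this, e7]
      ring
    have e10 : ∑ y, (- μ₁ y - f₁ (π⁻¹ y) + f₁ y) * (h₂ y - x₂ lC y) =
        - ∑ y, μ₁ y * (h₂ y - x₂ lC y) - ∑ y, f₁ (π⁻¹ y) * (j y - j (π⁻¹ y)) := by
      have h1 : ∑ y, (- μ₁ y - f₁ (π⁻¹ y) + f₁ y) * (h₂ y - x₂ lC y) =
          - ∑ y, μ₁ y * (h₂ y - x₂ lC y) - ∑ y, f₁ (π⁻¹ y) * j y + ∑ y, f₁ y * j y := by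
        rw [← Finset.sum_neg_distrib, ← Finset.sum_sub_distrib, ← Finset.sum_add_distrib]
        refine Finset.sum_congr rfl fun y _ => ?_
        rw [hj]
        ring
      rw [h1, e6]
      have h2 : ∑ y, f₁ (π⁻¹ y) * (j y - j (π⁻¹ y)) = ∑ y, f₁ (π⁻¹ y) * j y -
          ∑ y, f₁ (π⁻¹ y) * j (π⁻¹ y) := by
        rw [← Finset.sum_sub_distrib]
        refine Finset.sum_congr rfl fun y _ => ?_
        ring
      rw [h2]
      ring
    have e11 : ∑ y, Δ y * (g₂ y + f₂ (π⁻¹ y) - f₂ y + μ₂ y) = ∑ y, Δ y * k y := by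
      refine Finset.sum_congr rfl fun y _ => ?_
      rw [hk]
    have e12 : ∑ y, ((x₁ lC (π⁻¹ y) - h₁ (π⁻¹ y)) * k y + (D y - Δ y) * k y -
        (D y - Δ y) * (j y - j (π⁻¹ y))) = ∑ y, X lC y * k y - ∑ y, h₁ y * k y -
        ∑ y, Δ y * k y - ∑ y, f₁ (π⁻¹ (i lC y)) * (j y - j (π⁻¹ y)) +
        ∑ y, f₁ (π⁻¹ y) * (j y - j (π⁻¹ y)) + (∑ y, Δ y * j y - ∑ y, Δ y * j (π⁻¹ y)) := by
      rw [← Finset.sum_sub_distrib, ← Finset.sum_sub_distrib, ← Finset.sum_sub_distrib,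
        ← Finset.sum_add_distrib, ← Finset.sum_sub_distrib, ← Finset.sum_add_distrib]
      refine Finset.sum_congr rfl fun y _ => ?_
      rw [XC, hD, haC, i1]
      ring
    rw [e12, e8, e11]
    simp only [tau]
    rw [e3, e9, e10]
    ring
  rw [hX, hE] at main
  rw [main]
  refine R.sum_mem fun y _ => R.sub_mem (R.add_mem ?_ ?_) ?_
  · exact R.mul_mem (hB.xc₁ _) (kR y)
  · exact R.mul_mem (dR y) (kR y)
  · exact R.mul_mem (dR y) (R.sub_mem (jR _) (jR _))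

end Pool.Agent.SOR.H13
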