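import Pool.Agent.SOR.Stmts1

/-! Squad SOR, row TAB: twelve times `τ(a)`. -/

open scoped BigOperators

noncomputable section

namespace Pool.Agent.SOR.H13

open Pool.Agent.SOR

theorem tab_pow (hTMU : TmuStmt) (Y : Type) [Fintype Y] (R : Subring ℚ) (i : Fr →* Equiv.Perm Y)
    (x₁ x₂ : Fr → Y → ℚ) (h₁ h₂ : Y → ℚ) (hB : Bs R i x₁ x₂ h₁ h₂) (φ : MulAut Fr)
    (π : Equiv.Perm Y) (G₁ G₂ : Y → ℚ) (hA : Ad R i x₁ x₂ h₁ h₂ φ π G₁ G₂) (n : ℕ) :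
    Ad R i x₁ x₂ h₁ h₂ (φ ^ (n + 1)) (π ^ (n + 1))
      (fun y => ∑ k ∈ Finset.range (n + 1), G₁ ((π⁻¹ ^ k) y))
      (fun y => ∑ k ∈ Finset.range (n + 1), G₂ ((π⁻¹ ^ k) y)) ∧
    tau i x₁ x₂ h₁ h₂ (φ ^ (n + 1)) (π ^ (n + 1))
      (fun y => ∑ k ∈ Finset.range (n + 1), G₁ ((π⁻¹ ^ k) y))
      (fun y => ∑ k ∈ Finset.range (n + 1), G₂ ((π⁻¹ ^ k) y)) -
      ((n : ℚ) + 1) * tau i x₁ x₂ h₁ h₂ φ π G₁ G₂ ∈ R := by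
  induction n with
  | zero =>
    have e : ∀ G : Y → ℚ, (fun y => ∑ k ∈ Finset.range (0 + 1), G ((π⁻¹ ^ k) y)) = G := by
      intro G
      funext y
      rw [zero_add, Finset.sum_range_one, pow_zero, Equiv.Perm.one_apply]
    rw [e, e, zero_add, pow_one, pow_one]
    refine ⟨hA, ?_⟩
    have : tau i x₁ x₂ h₁ h₂ φ π G₁ G₂ - (((0 : ℕ) : ℚ) + 1) * tau i x₁ x₂ h₁ h₂ φ π G₁ G₂ = 0 := by
      push_cast
      ring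
    rw [this]
    exact R.zero_mem
  | succ n ih =>
    obtain ⟨ih1, ih2⟩ := ih
    obtain ⟨h3, h4⟩ := hTMU Y R i x₁ x₂ h₁ h₂ hB φ π G₁ G₂ _ _ _ _ hA ih1
    have e : ∀ G : Y → ℚ, (fun y => G y +
        (fun y => ∑ k ∈ Finset.range (n + 1), G ((π⁻¹ ^ k) y)) (π⁻¹ y)) =
        fun y => ∑ k ∈ Finset.range (n + 1 + 1), G ((π⁻¹ ^ k) y) := by
      intro G
      funext y
      rw [Finset.sum_range_succ' _ (n + 1)]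
      have e1 : ∀ k, (π⁻¹ ^ k) (π⁻¹ y) = (π⁻¹ ^ (k + 1)) y := by
        intro k
        rw [pow_succ, Equiv.Perm.mul_apply]
      simp only [e1, pow_zero, Equiv.Perm.coe_one, id_eq]
      rw [add_comm]
    rw [e, e] at h3 h4
    rw [← pow_succ', ← pow_succ'] at h3 h4
    refine ⟨h3, ?_⟩
    have h5 := R.add_mem h4 ih2
    have e2 : tau i x₁ x₂ h₁ h₂ (φ ^ (n + 1 + 1)) (π ^ (n + 1 + 1))
        (fun y => ∑ k ∈ Finset.range (n + 1 + 1), G₁ ((π⁻¹ ^ k) y))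
        (fun y => ∑ k ∈ Finset.range (n + 1 + 1), G₂ ((π⁻¹ ^ k) y)) -
        (((n + 1 : ℕ) : ℚ) + 1) * tau i x₁ x₂ h₁ h₂ φ π G₁ G₂ =
        tau i x₁ x₂ h₁ h₂ (φ ^ (n + 1 + 1)) (π ^ (n + 1 + 1))
        (fun y => ∑ k ∈ Finset.range (n + 1 + 1), G₁ ((π⁻¹ ^ k) y))
        (fun y => ∑ k ∈ Finset.range (n + 1 + 1), G₂ ((π⁻¹ ^ k) y)) -
        tau i x₁ x₂ h₁ h₂ φ π G₁ G₂ - tau i x₁ x₂ h₁ h₂ (φ ^ (n + 1)) (π ^ (n + 1))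
        (fun y => ∑ k ∈ Finset.range (n + 1), G₁ ((π⁻¹ ^ k) y))
        (fun y => ∑ k ∈ Finset.range (n + 1), G₂ ((π⁻¹ ^ k) y)) +
        (tau i x₁ x₂ h₁ h₂ (φ ^ (n + 1)) (π ^ (n + 1))
        (fun y => ∑ k ∈ Finset.range (n + 1), G₁ ((π⁻¹ ^ k) y))
        (fun y => ∑ k ∈ Finset.range (n + 1), G₂ ((π⁻¹ ^ k) y)) -
        ((n : ℚ) + 1) * tau i x₁ x₂ h₁ h₂ φ π G₁ G₂) := by
      push_cast
      ring
    rw [e2]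
    exact h5

theorem tab_fin (R : Subring ℚ) (ta tb tab tba taba tbab t6 tT S : ℚ) (e1 : tab - ta - tb ∈ R)
    (e2 : tba - tb - ta ∈ R) (e3 : taba - tab - ta ∈ R) (e4 : tbab - tba - tb ∈ R)
    (e5 : taba - tbab ∈ R) (e6 : t6 - (((5 : ℕ) : ℚ) + 1) * tab ∈ R) (e7 : tT - S ∈ R)
    (e8 : t6 - tT ∈ R) : 12 * ta - S ∈ R := by
  have h1 : ta - tb ∈ R := by
    have e : ta - tb = (taba - tbab) - (taba - tab - ta) - (tab - ta - tb) + (tbab - tba - tb) +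
        (tba - tb - ta) := by ring
    rw [e]
    exact R.add_mem (R.add_mem (R.sub_mem (R.sub_mem e5 e3) e1) e4) e2
  have h6 : (6 : ℚ) ∈ R := by
    have := natCast_mem R 6
    simpa using this
  have e : 12 * ta - S = 6 * (ta - tb) - 6 * (tab - ta - tb) - (t6 - (((5 : ℕ) : ℚ) + 1) * tab) +
      (t6 - tT) + (tT - S) := by
    push_cast
    ring
  rw [e]
  exact R.add_mem (R.add_mem (R.sub_mem (R.sub_mem (R.mul_mem h6 h1) (R.mul_mem h6 e1)) e6) e8) e7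

theorem tab (hTIN : TinStmt) (hTMU : TmuStmt) (hTTT : TttStmt) (hAUT : AutStmt) : TabStmt := by
  intro Y _ R i x₁ x₂ h₁ h₂ hB r₁ r₂ πa πb ga₁ ga₂ gb₁ gb₂ hA hBb hπ hπ6 hg1 hg2 hs1 hs2
  obtain ⟨_, _, _, haut, haut6⟩ := hAUT
  obtain ⟨hab, tab⟩ := hTMU Y R i x₁ x₂ h₁ h₂ hB pa πa ga₁ ga₂ pb πb gb₁ gb₂ hA hBb
  obtain ⟨hba, tba⟩ := hTMU Y R i x₁ x₂ h₁ h₂ hB pb πb gb₁ gb₂ pa πa ga₁ ga₂ hBb hA
  obtain ⟨haba, taba⟩ := hTMU Y R i x₁ x₂ h₁ h₂ hB _ _ _ _ pa πa ga₁ ga₂ hab hA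
  obtain ⟨hbab, tbab⟩ := hTMU Y R i x₁ x₂ h₁ h₂ hB _ _ _ _ pb πb gb₁ gb₂ hba hBb
  rw [← haut, ← hπ] at hbab tbab
  have t1 := hTIN Y R i x₁ x₂ h₁ h₂ hB _ _ _ _ _ _ hbab haba hg1 hg2
  obtain ⟨h6, t6⟩ := tab_pow hTMU Y R i x₁ x₂ h₁ h₂ hB _ _ _ _ hab 5
  obtain ⟨hT, tT⟩ := hTTT Y R i x₁ x₂ h₁ h₂ hB r₁ r₂
  have ep : (pa * pb) ^ (5 + 1) = MulAut.conj lC := haut6
  have eπ : (πa * πb) ^ (5 + 1) = i lC := hπ6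
  rw [ep, eπ] at h6 t6
  have t2 := hTIN Y R i x₁ x₂ h₁ h₂ hB _ _ _ _ _ _ hT h6
    (fun y => by
      have h := hs1 y
      have e : (∑ k ∈ Finset.range (5 + 1), (fun y => ga₁ y + gb₁ (πa⁻¹ y)) (((πa * πb)⁻¹ ^ k) y)) -
          -(h₁ y + r₁) = (∑ k ∈ Finset.range 6, (ga₁ (((πa * πb)⁻¹ ^ k) y) +
            gb₁ (πa⁻¹ (((πa * πb)⁻¹ ^ k) y)))) + (h₁ y + r₁) := by
        rw [sub_neg_eq_add]
      exact e ▸ h)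
    (fun y => by
      have h := hs2 y
      have e : (∑ k ∈ Finset.range (5 + 1), (fun y => ga₂ y + gb₂ (πa⁻¹ y)) (((πa * πb)⁻¹ ^ k) y)) -
          -(h₂ y + r₂) = (∑ k ∈ Finset.range 6, (ga₂ (((πa * πb)⁻¹ ^ k) y) +
            gb₂ (πa⁻¹ (((πa * πb)⁻¹ ^ k) y)))) + (h₂ y + r₂) := by
        rw [sub_neg_eq_add]
      exact e ▸ h)
  exact tab_fin R _ _ _ _ _ _ _ _ _ tab tba taba tbab t1 t6 tT t2

end Pool.Agent.SOR.H13
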